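import Pool.Agent.Helper26.MCE.GoalsB

/-!
# Packet MCE-TREE: existence of the forest
-/

set_option autoImplicit false

namespace Pool.Agent.Helper58.MCE

open Finset _root_.Pool.Agent.Helper26.MCE

/-- The sizes of the clusters, downwards from the level `j`. -/
noncomputable def gg (x : ℕ → ℝ) (j : ℕ) : ℕ → ℕ
  | 0 => ⌊x j⌋₊
  | d + 1 => if 2 * (gg x j d : ℝ) ≤ x (j - (d + 1)) then
      ⌊x (j - (d + 1)) / gg x j d⌋₊ * gg x j d else gg x j d

theorem gg_succ (x : ℕ → ℝ) (j d : ℕ) : gg x j (d + 1) =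
    if 2 * (gg x j d : ℝ) ≤ x (j - (d + 1)) then
      ⌊x (j - (d + 1)) / gg x j d⌋₊ * gg x j d else gg x j d := rfl

theorem gg_pos {x : ℕ → ℝ} {j : ℕ} (hx : 1 ≤ x j) (d : ℕ) : 1 ≤ gg x j d := by
  induction d with
  | zero => exact Nat.floor_pos.2 hx
  | succ d ih =>
    rw [gg_succ]
    split_ifs with h
    · have h1 : (1 : ℝ) ≤ gg x j d := by exact_mod_cast ih
      have h2 : 1 ≤ ⌊x (j - (d + 1)) / gg x j d⌋₊ := by
        apply Nat.floor_pos.2
        rw [le_div_iff₀ (by linarith)]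
        linarith
      exact Nat.one_le_iff_ne_zero.2 (Nat.mul_ne_zero (by omega) (by omega))
    · exact ih

theorem gg_dvd (x : ℕ → ℝ) (j d : ℕ) : gg x j d ∣ gg x j (d + 1) := by
  rw [gg_succ]
  split_ifs with h
  · exact Dvd.intro_left _ rfl
  · exact dvd_rfl

theorem gg_up {x : ℕ → ℝ} {j : ℕ} (hx : 1 ≤ x j) (d : ℕ) :
    (gg x j (d + 1) : ℝ) ≤ x (j - (d + 1)) ∨ gg x j (d + 1) = gg x j d := by
  have h1 : (1 : ℝ) ≤ gg x j d := by exact_mod_cast gg_pos hx d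
  rw [gg_succ]
  split_ifs with h
  · left
    push_cast
    have h2 : (⌊x (j - (d + 1)) / gg x j d⌋₊ : ℝ) ≤ x (j - (d + 1)) / gg x j d :=
      Nat.floor_le (div_nonneg (by linarith) (by linarith))
    calc (⌊x (j - (d + 1)) / gg x j d⌋₊ : ℝ) * gg x j d
        ≤ x (j - (d + 1)) / gg x j d * gg x j d := mul_le_mul_of_nonneg_right h2 (by linarith)
      _ = x (j - (d + 1)) := div_mul_cancel₀ _ (by linarith)
  · right
    rfl

theorem gg_low {x : ℕ → ℝ} {j : ℕ} (hx : 1 ≤ x j) (d : ℕ) :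
    x (j - (d + 1)) ≤ 2 * (gg x j (d + 1) : ℝ) := by
  have h1 : (1 : ℝ) ≤ gg x j d := by exact_mod_cast gg_pos hx d
  rw [gg_succ]
  split_ifs with h
  · push_cast
    have h2 : x (j - (d + 1)) / gg x j d < (⌊x (j - (d + 1)) / gg x j d⌋₊ : ℝ) + 1 :=
      Nat.lt_floor_add_one _
    have h3 : (1 : ℝ) ≤ ⌊x (j - (d + 1)) / gg x j d⌋₊ := by
      have : 1 ≤ ⌊x (j - (d + 1)) / gg x j d⌋₊ := by
        apply Nat.floor_pos.2
        rw [le_div_iff₀ (by linarith)]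
        linarith
      exact_mod_cast this
    have h4 : x (j - (d + 1)) < ((⌊x (j - (d + 1)) / gg x j d⌋₊ : ℝ) + 1) * gg x j d := by
      rwa [div_lt_iff₀ (by linarith)] at h2
    nlinarith
  · push Not at h
    exact h.le

theorem gg_le {x : ℕ → ℝ} {j M : ℕ} (hx : 1 ≤ x j) (hM : ∀ i, 1 ≤ i → i ≤ j → x i ≤ M) (d : ℕ)
    (hd : d < j) : gg x j d ≤ M := by
  induction d with
  | zero =>
    have h1 : (gg x j 0 : ℝ) ≤ x j := Nat.floor_le (by linarith)
    exact_mod_cast h1.trans (hM j hd le_rfl)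
  | succ d ih =>
    rcases gg_up hx d with h | h
    · exact_mod_cast h.trans (hM _ (by omega) (by omega))
    · rw [h]
      exact ih (by omega)

theorem exists_h (s : ℕ) (x : ℕ → ℝ) (M : ℕ) (hM : 1 ≤ M)
    (hx1 : ∀ i, 1 ≤ i → i < s → 1 ≤ x i) (hxM : ∀ i, 1 ≤ i → i < s → x i ≤ M) :
    ∃ h : ℕ → ℕ → ℕ, ∀ j < s, (∀ i, 1 ≤ i → 1 ≤ h j i) ∧
      (∀ i, 1 ≤ i → h j (i + 1) ∣ h j i) ∧ (∀ i, j < i → h j i = 1) ∧
      (∀ i, 1 ≤ i → i ≤ j → (h j i : ℝ) ≤ x i ∨ h j i = h j (i + 1)) ∧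
      (∀ i, 1 ≤ i → i ≤ j → x i ≤ 2 * h j i) ∧ h j 1 ≤ M := by
  refine ⟨fun j i ↦ if i ≤ j then gg x j (j - i) else 1, fun j hj ↦ ⟨?_, ?_, ?_, ?_, ?_, ?_⟩⟩
  · intro i hi
    show 1 ≤ if i ≤ j then gg x j (j - i) else 1
    split_ifs with h
    · exact gg_pos (hx1 j (hi.trans h) hj) _
    · exact le_rfl
  · intro i hi
    show (if i + 1 ≤ j then gg x j (j - (i + 1)) else 1) ∣ if i ≤ j then gg x j (j - i) else 1
    by_cases h : i + 1 ≤ j
    · rw [if_pos h, if_pos (by omega)]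
      have h1 : j - i = (j - (i + 1)) + 1 := by omega
      rw [h1]
      exact gg_dvd x j _
    · rw [if_neg h]
      exact one_dvd _
  · intro i hi
    show (if i ≤ j then gg x j (j - i) else 1) = 1
    rw [if_neg (by omega)]
  · intro i hi hij
    show ((if i ≤ j then gg x j (j - i) else 1 : ℕ) : ℝ) ≤ x i ∨
      (if i ≤ j then gg x j (j - i) else 1) = if i + 1 ≤ j then gg x j (j - (i + 1)) else 1
    have hxj := hx1 j (hi.trans hij) hj
    rw [if_pos hij]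
    rcases hij.eq_or_lt with h | h
    · left
      subst h
      rw [Nat.sub_self]
      exact Nat.floor_le (by linarith)
    · rw [if_pos (show i + 1 ≤ j from h)]
      have h1 : j - i = (j - (i + 1)) + 1 := by omega
      rw [h1]
      have h2 := gg_up hxj (j - (i + 1))
      have h3 : j - ((j - (i + 1)) + 1) = i := by omega
      rwa [h3] at h2
  · intro i hi hij
    show x i ≤ 2 * ((if i ≤ j then gg x j (j - i) else 1 : ℕ) : ℝ)
    have hxj := hx1 j (hi.trans hij) hj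
    rw [if_pos hij]
    rcases hij.eq_or_lt with h | h
    · subst h
      rw [Nat.sub_self]
      show x i ≤ 2 * ((⌊x i⌋₊ : ℕ) : ℝ)
      have h1 : x i < (⌊x i⌋₊ : ℝ) + 1 := Nat.lt_floor_add_one _
      have h2 : (1 : ℝ) ≤ ⌊x i⌋₊ := by exact_mod_cast Nat.floor_pos.2 hxj
      linarith
    · have h1 : j - i = (j - (i + 1)) + 1 := by omega
      rw [h1]
      have h2 := gg_low hxj (j - (i + 1))
      have h3 : j - ((j - (i + 1)) + 1) = i := by omega
      rwa [h3] at h2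
  · show (if 1 ≤ j then gg x j (j - 1) else 1) ≤ M
    split_ifs with h
    · exact gg_le (hx1 j h hj) (fun i hi hij ↦ hxM i hi (by omega)) _ (by omega)
    · exact hM

section

variable {s : ℕ} (n : Fin s → ℕ) (h : ℕ → ℕ → ℕ)

theorem blk_lt {a x k : ℕ} (hx : x < k) : x / a * a < k :=
  lt_of_le_of_lt (Nat.div_mul_le_self x a) hx

/-- The representative of the cluster. -/
def cc (v₀ : Σ j : Fin s, Fin (n j)) : ℕ → (Σ j : Fin s, Fin (n j)) → Σ j : Fin s, Fin (n j)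
  | 0, _ => v₀
  | l + 1, v => ⟨v.1, ⟨v.2 / h v.1 (l + 1) * h v.1 (l + 1), blk_lt v.2.2⟩⟩

variable {n h}

theorem ext_iff {v v' : Σ j : Fin s, Fin (n j)} :
    v = v' ↔ (v.1 : ℕ) = v'.1 ∧ (v.2 : ℕ) = v'.2 := by
  constructor
  · rintro rfl
    exact ⟨rfl, rfl⟩
  · obtain ⟨j, x⟩ := v
    obtain ⟨j', x'⟩ := v'
    rintro ⟨h1, h2⟩
    have h3 : j = j' := Fin.ext h1
    subst h3
    have h4 : x = x' := Fin.ext h2
    rw [h4]

theorem cc_iff (v₀ : Σ j : Fin s, Fin (n j)) {l : ℕ} (hl : 1 ≤ l) {v v' : Σ j : Fin s, Fin (n j)}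
    (hpos : 1 ≤ h v.1 l) : cc n h v₀ l v' = cc n h v₀ l v ↔
      (v'.1 : ℕ) = v.1 ∧ (v'.2 : ℕ) / h v.1 l = (v.2 : ℕ) / h v.1 l := by
  obtain ⟨l, rfl⟩ : ∃ l', l = l' + 1 := ⟨l - 1, by omega⟩
  rw [ext_iff]
  show (v'.1 : ℕ) = v.1 ∧ (v'.2 : ℕ) / h v'.1 (l + 1) * h v'.1 (l + 1) =
    (v.2 : ℕ) / h v.1 (l + 1) * h v.1 (l + 1) ↔ _
  constructor
  · rintro ⟨h1, h2⟩
    rw [h1] at h2
    exact ⟨h1, Nat.eq_of_mul_eq_mul_right hpos h2⟩
  · rintro ⟨h1, h2⟩
    refine ⟨h1, ?_⟩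
    rw [h1, h2]

theorem card_class (v₀ : Σ j : Fin s, Fin (n j)) {l : ℕ} (hl : 1 ≤ l)
    (v : Σ j : Fin s, Fin (n j)) (hpos : 1 ≤ h v.1 l) (hdvd : h v.1 l ∣ n v.1)
    [DecidablePred fun v' ↦ cc n h v₀ l v' = cc n h v₀ l v] :
    (univ.filter fun v' ↦ cc n h v₀ l v' = cc n h v₀ l v).card = h v.1 l := by
  have h1 : (univ.filter fun v' ↦ cc n h v₀ l v' = cc n h v₀ l v).card =
      (Finset.Ico ((v.2 : ℕ) / h v.1 l * h v.1 l)
        ((v.2 : ℕ) / h v.1 l * h v.1 l + h v.1 l)).card := by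
    refine Finset.card_bij (fun v' _ ↦ (v'.2 : ℕ)) ?_ ?_ ?_
    · intro v' hv'
      rw [mem_filter, cc_iff v₀ hl hpos] at hv'
      rw [Finset.mem_Ico, ← hv'.2.2]
      refine ⟨Nat.div_mul_le_self _ _, ?_⟩
      exact Nat.lt_div_mul_add hpos
    · intro v' hv' v'' hv'' he
      rw [mem_filter, cc_iff v₀ hl hpos] at hv' hv''
      rw [ext_iff]
      exact ⟨hv'.2.1.trans hv''.2.1.symm, he⟩
    · intro y hy
      rw [Finset.mem_Ico] at hy
      obtain ⟨k, hk⟩ := hdvd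
      have hlt : y < n v.1 := by
        have h2 : (v.2 : ℕ) < h v.1 l * k := by
          rw [← hk]
          exact v.2.2
        have h3 : (v.2 : ℕ) / h v.1 l < k := Nat.div_lt_of_lt_mul h2
        have h4 : (v.2 : ℕ) / h v.1 l * h v.1 l + h v.1 l ≤ k * h v.1 l := by
          have h5 : ((v.2 : ℕ) / h v.1 l + 1) * h v.1 l ≤ k * h v.1 l :=
            Nat.mul_le_mul_right _ h3
          rwa [Nat.succ_mul] at h5
        rw [hk, mul_comm]
        omega
      refine ⟨⟨v.1, ⟨y, hlt⟩⟩, ?_, rfl⟩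
      rw [mem_filter, cc_iff v₀ hl hpos]
      refine ⟨mem_univ _, rfl, ?_⟩
      show y / h v.1 l = (v.2 : ℕ) / h v.1 l
      apply Nat.div_eq_of_lt_le
      · exact hy.1
      · rw [Nat.succ_mul]
        exact hy.2
  rw [h1, Nat.card_Ico, Nat.add_sub_cancel_left]

theorem card_ty (j : ℕ) (hj : j < s)
    [DecidablePred fun v' : Σ j : Fin s, Fin (n j) ↦ (v'.1 : ℕ) = j] :
    (univ.filter fun v' : Σ j : Fin s, Fin (n j) ↦ (v'.1 : ℕ) = j).card = n ⟨j, hj⟩ := by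
  have h1 : (univ.filter fun v' : Σ j : Fin s, Fin (n j) ↦ (v'.1 : ℕ) = j).card =
      (Finset.range (n ⟨j, hj⟩)).card := by
    refine Finset.card_bij (fun v' _ ↦ (v'.2 : ℕ)) ?_ ?_ ?_
    · intro v' hv'
      rw [mem_filter] at hv'
      rw [Finset.mem_range]
      have h2 : v'.1 = ⟨j, hj⟩ := Fin.ext hv'.2
      rw [← h2]
      exact v'.2.2
    · intro v' hv' v'' hv'' he
      rw [mem_filter] at hv' hv''
      rw [ext_iff]
      exact ⟨hv'.2.trans hv''.2.symm, he⟩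
    · intro y hy
      rw [Finset.mem_range] at hy
      exact ⟨⟨⟨j, hj⟩, ⟨y, hy⟩⟩, by rw [mem_filter]; exact ⟨mem_univ _, rfl⟩, rfl⟩
  rw [h1, Finset.card_range]

end

theorem goalTREE : G_TREE := by
  intro s m f N lam ρ hs hm hf hfN hρ hρ1 hN hN1 hbig
  have hNle : ∀ i, 1 ≤ i → i ≤ s → N i ≤ N 1 := by
    intro i hi
    induction i, hi using Nat.le_induction with
    | base => intro _; exact le_rfl
    | succ i hi ih => intro h; exact (hN i (by omega)).trans (ih (by omega))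
  have hx1 : ∀ i, 1 ≤ i → i < s → 1 ≤ ρ i * N i / f i := by
    intro i hi his
    have h1 : (0 : ℝ) < f i := by exact_mod_cast hf i his
    rw [le_div_iff₀ h1, one_mul]
    exact hfN i hi his
  have hxM : ∀ i, 1 ≤ i → i < s → ρ i * N i / f i ≤ N 1 := by
    intro i hi his
    have h1 : (1 : ℝ) ≤ f i := by exact_mod_cast hf i his
    have h2 : (N i : ℝ) ≤ N 1 := by exact_mod_cast hNle i hi his.le
    have h3 : ρ i * N i ≤ N 1 := by
      calc ρ i * N i ≤ 1 * N i := mul_le_mul_of_nonneg_right (hρ1 i his) (Nat.cast_nonneg _)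
        _ ≤ N 1 := by rw [one_mul]; exact h2
    have h4 : (0 : ℝ) ≤ N 1 := Nat.cast_nonneg _
    rw [div_le_iff₀ (by linarith)]
    nlinarith
  obtain ⟨h, hh⟩ := exists_h s (fun i ↦ ρ i * N i / f i) (N 1) hN1 hx1 hxM
  let n : Fin s → ℕ := fun j ↦ (8 * m + (2 * lam j / h j 1 + 1)) * h j 1
  have hn : ∀ j, n j = (8 * m + (2 * lam j / h j 1 + 1)) * h j 1 := fun j ↦ rfl
  have hpos : ∀ j : Fin s, ∀ l, 1 ≤ l → 1 ≤ h j l := fun j l hl ↦ (hh j j.2).1 l hl
  have hdvd1 : ∀ j : Fin s, ∀ l, 1 ≤ l → h j l ∣ h j 1 := by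
    intro j l hl
    induction l, hl using Nat.le_induction with
    | base => exact dvd_rfl
    | succ l hl ih => exact ((hh j j.2).2.1 l hl).trans ih
  have hdvd : ∀ j : Fin s, ∀ l, 1 ≤ l → h j l ∣ n j := fun j l hl ↦
    (hdvd1 j l hl).trans (Dvd.intro_left _ rfl)
  have hnlow1 : ∀ j : Fin s, 8 * m * h j 1 ≤ n j := by
    intro j
    rw [hn]
    exact Nat.mul_le_mul_right _ (Nat.le_add_right _ _)
  have hnlow2 : ∀ j : Fin s, 2 * lam j ≤ n j := by
    intro j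
    rw [hn, add_mul]
    have h1 : 2 * lam j < 2 * lam j / h j 1 * h j 1 + h j 1 :=
      Nat.lt_div_mul_add (hpos j 1 le_rfl)
    rw [add_mul, one_mul]
    omega
  have hnup : ∀ j : Fin s, n j ≤ (8 * m + 1) * N 1 + 2 * lam j := by
    intro j
    have h1 : n j = (8 * m + 1) * h j 1 + 2 * lam j / h j 1 * h j 1 := by
      rw [hn]
      ring
    rw [h1]
    exact Nat.add_le_add (Nat.mul_le_mul_left _ (hh j j.2).2.2.2.2.2) (Nat.div_mul_le_self _ _)
  have hn1 : ∀ j : Fin s, 1 ≤ n j := by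
    intro j
    refine le_trans ?_ (hnlow1 j)
    exact Nat.mul_pos (show 0 < 8 * m by omega) (hpos j 1 le_rfl)
  let v₀ : Σ j : Fin s, Fin (n j) := ⟨⟨0, hs⟩, ⟨0, hn1 _⟩⟩
  have hcard : Fintype.card (Σ j : Fin s, Fin (n j)) ≤
      s * (8 * m + 1) * N 1 + 2 * ∑ j ∈ range s, lam j := by
    rw [Fintype.card_sigma]
    simp only [Fintype.card_fin]
    calc ∑ j : Fin s, n j ≤ ∑ j : Fin s, ((8 * m + 1) * N 1 + 2 * lam j) :=
          Finset.sum_le_sum fun j _ ↦ hnup j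
      _ = s * (8 * m + 1) * N 1 + 2 * ∑ j ∈ range s, lam j := by
          rw [Finset.sum_add_distrib, Finset.sum_const, Finset.card_univ, Fintype.card_fin,
            smul_eq_mul, ← Finset.mul_sum, Fin.sum_univ_eq_sum_range (fun j ↦ lam j)]
          ring
  refine ⟨Σ j : Fin s, Fin (n j), inferInstance, cc n h v₀, fun v ↦ v.1, ⟨?_, ?_, ?_, ?_, ?_, ?_,
    ?_, ?_, ?_⟩, hcard⟩
  · intro v v'
    rfl
  · intro v
    obtain ⟨s', rfl⟩ : ∃ s', s = s' + 1 := ⟨s - 1, by omega⟩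
    rw [ext_iff]
    refine ⟨rfl, ?_⟩
    show (v.2 : ℕ) / h v.1 (s' + 1) * h v.1 (s' + 1) = v.2
    rw [(hh v.1 v.1.2).2.2.1 (s' + 1) v.1.2, Nat.div_one, mul_one]
  · intro i hi v v' hvv
    rcases Nat.eq_zero_or_pos i with h0 | h0
    · subst h0
      rfl
    · rw [cc_iff v₀ (by omega) (hpos _ _ (by omega))] at hvv
      rw [cc_iff v₀ h0 (hpos _ _ h0)]
      refine ⟨hvv.1, ?_⟩
      obtain ⟨k, hk⟩ := (hh v'.1 v'.1.2).2.1 i h0
      rw [hk, ← Nat.div_div_eq_div_mul, ← Nat.div_div_eq_div_mul, hvv.2]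
  · intro v
    exact v.1.2
  · intro v i hi his v' hv'
    have hi1 : 1 ≤ i := by omega
    rw [cc_iff v₀ hi1 (hpos _ _ hi1)] at hv'
    rw [(hh v.1 v.1.2).2.2.1 i hi, Nat.div_one, Nat.div_one] at hv'
    rw [ext_iff]
    exact hv'
  · intro v i hi
    rcases Nat.eq_zero_or_pos i with h0 | h0
    · subst h0
      left
      refine le_trans ?_ hbig
      refine mul_le_mul_of_nonneg_right ?_ (Nat.cast_nonneg _)
      exact_mod_cast (Finset.card_le_univ _).trans hcard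
    · have hcls : ∀ inst : DecidablePred fun v' ↦ cc n h v₀ i v' = cc n h v₀ i v,
          (@Finset.filter _ _ inst univ).card = h v.1 i := fun inst ↦
        card_class (h := h) v₀ h0 v (hpos _ _ h0) (hdvd _ _ h0)
      have hsame : h v.1 i = h v.1 (i + 1) → ∀ v', cc n h v₀ i v' = cc n h v₀ i v →
          cc n h v₀ (i + 1) v' = cc n h v₀ (i + 1) v := by
        intro he v' hv'
        rw [cc_iff v₀ h0 (hpos _ _ h0)] at hv'
        rw [cc_iff v₀ (by omega) (hpos _ _ (by omega)), ← he]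
        exact hv'
      by_cases hij : i ≤ (v.1 : ℕ)
      · rcases (hh v.1 v.1.2).2.2.2.1 i h0 hij with h1 | h1
        · left
          rw [hcls]
          have h2 : (0 : ℝ) < f i := by exact_mod_cast hf i hi
          rwa [le_div_iff₀ h2] at h1
        · right
          exact hsame h1
      · right
        apply hsame
        rw [(hh v.1 v.1.2).2.2.1 i (by omega), (hh v.1 v.1.2).2.2.1 (i + 1) (by omega)]
  · intro v i hi hij
    have hcls : ∀ inst : DecidablePred fun v' ↦ cc n h v₀ i v' = cc n h v₀ i v,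
        (@Finset.filter _ _ inst univ).card = h v.1 i := fun inst ↦
      card_class (h := h) v₀ hi v (hpos _ _ hi) (hdvd _ _ hi)
    rw [hcls]
    have h1 := (hh v.1 v.1.2).2.2.2.2.1 i hi hij
    have h2 : (0 : ℝ) < f i := by exact_mod_cast hf i (lt_of_le_of_lt hij v.1.2)
    rwa [div_le_iff₀ h2] at h1
  · intro v
    have hcls : ∀ inst : DecidablePred fun v' ↦ cc n h v₀ 1 v' = cc n h v₀ 1 v,
        (@Finset.filter _ _ inst univ).card = h v.1 1 := fun inst ↦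
      card_class (h := h) v₀ le_rfl v (hpos _ _ le_rfl) (hdvd _ _ le_rfl)
    have hty : ∀ inst : DecidablePred fun v' : Σ j : Fin s, Fin (n j) ↦ (v'.1 : ℕ) = v.1,
        (@Finset.filter _ _ inst univ).card = n v.1 := fun inst ↦ card_ty (v.1 : ℕ) v.1.2
    rw [hcls, hty]
    exact hnlow1 v.1
  · intro j hj
    have hty : ∀ inst : DecidablePred fun v' : Σ j : Fin s, Fin (n j) ↦ (v'.1 : ℕ) = j,
        (@Finset.filter _ _ inst univ).card = n ⟨j, hj⟩ := fun inst ↦ card_ty j hj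
    rw [hty]
    exact ⟨hnlow2 ⟨j, hj⟩, hn1 _⟩

end Pool.Agent.Helper58.MCE
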